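import Pool.Agent.KK.StmtsB

/-! MP_747bc0_co, block B, row GLB. -/

namespace Pool.Agent.KK.B.H22

open Function
open scoped Classical

theorem glb (hPlt : PltStmt) (hNsp : NspStmt) (hChn : ChnStmt) : GlbStmt := by
  intro k V _ _ E D0 D β δ θ i0 i1 a0 a hβ hβ16 hθ hθ8 hδ hδθ hβθ h88 hE hdeg hI0 hI hi hlev0
    hSS0 hlev i l hil
  obtain ⟨s, rfl⟩ : ∃ s, k = s + 1 := ⟨k - 1, by have := i0.isLt; omega⟩
  have hβ' : 11 * β ≤ θ := by nlinarith
  have hG : G0 E D β a := lev_le (Nat.zero_le _) hlev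
  obtain ⟨hst, hpl, -⟩ := G0_self hG hil
  rcases hPlt (s + 1) V E D β a i l hβ hβ16 hE hdeg hil hpl with ⟨h1, -⟩ | ⟨h1, -⟩ | ⟨hSp, -, -, -⟩
  · left
    linarith
  · right; left
    linarith
  · right; right
    obtain ⟨σ, hσi, hσl⟩ := exists_perm (k := s + 1) hil hi
    have hcomp : (a ∘ σ.symm) ∘ σ = a := by
      funext x
      simp
    have hsi : σ.symm i0 = i := by rw [← hσi, Equiv.symm_apply_apply]
    have hsl : σ.symm i1 = l := by rw [← hσl, Equiv.symm_apply_apply]
    have hSS : SS D i0 i1 (a ∘ σ.symm) := by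
      refine ⟨σ, ?_⟩
      rw [hcomp, hsi, hsl]
      exact hSp
    have hlev' : lev δ (G0 E D β) (s + 1) (a ∘ σ.symm) :=
      (lev_perm (G0_perm E D β) (s + 1) σ.symm a).mpr hlev
    have hM : (Finset.univ \ {i0, i1} : Finset (Fin (s + 1))).card ≤ s := by
      have h1 : (Finset.univ \ {i0, i1} : Finset (Fin (s + 1))).card ≤
          (Finset.univ.erase i0 : Finset (Fin (s + 1))).card := by
        apply Finset.card_le_card
        intro x hx
        rw [Finset.mem_sdiff, Finset.mem_insert, not_or] at hx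
        exact Finset.mem_erase.mpr ⟨hx.2.1, Finset.mem_univ _⟩
      rw [Finset.card_erase_of_mem (Finset.mem_univ _), Finset.card_univ, Fintype.card_fin] at h1
      simpa using h1
    have h1 := hChn (s + 1) V E D0 D β δ θ i0 i1 s (Finset.univ \ {i0, i1}) a0 (a ∘ σ.symm)
      hβ hβ16 hθ hθ8 hδ hδθ hβθ hE hdeg hI0 hI hi (by simp) (by simp) hM hlev0 hlev' hSS0 hSS
      (by
        intro x hx hx0 hx1
        exact absurd (Finset.mem_sdiff.mpr ⟨Finset.mem_univ _, by simp [hx0, hx1]⟩) hx)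
    rw [nb_perm hE, hsi] at h1
    have h2 := (hNsp (s + 1) V E D β a i l hβ hβ16 hE hdeg hil hst hpl hSp).1
    refine pm_mono ?_ (pm_symm (pm_trans h1 h2))
    push_cast at h88
    linarith

end Pool.Agent.KK.B.H22
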